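import Mathlib
import Pool.Agent.Lib.MP_0765f6_an.Renorm

set_option autoImplicit false

/-! A smooth interval map with a special alpha-limit set that is not closed. -/

namespace Pool.Agent.Results.MP_0765f6_an.SmoothCounterexample

open Filter Topology ContDiff Pool.Agent.Lib.MP_0765f6_an

/-- The special alpha-limit set of `x` under `f`: all limits of subsequences of backward orbit
branches of `x`. -/
def specialAlpha {X : Type} [TopologicalSpace X] (f : X → X) (x : X) : Set X :=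
  {y | ∃ u : ℕ → X, u 0 = x ∧ (∀ n, f (u (n + 1)) = u n) ∧
    ∃ φ : ℕ → ℕ, StrictMono φ ∧ Tendsto (fun k => u (φ k)) atTop (𝓝 y)}

theorem branch {X : Type} (f : X → X) (N : ℕ) (hN : 1 ≤ N) (τ : ℕ → X)
    (h : ∀ k, f^[N] (τ (k + 1)) = τ k) :
    ∃ u : ℕ → X, u 0 = τ 0 ∧ (∀ n, f (u (n + 1)) = u n) ∧ ∀ k, u (N * k) = τ k := by
  have key : ∀ j k, f^[N * j] (τ (k + j)) = τ k := by
    intro j
    induction j with
    | zero => intro k; simp
    | succ j ih =>
      intro k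
      rw [mul_add, mul_one, Function.iterate_add_apply, ← add_assoc, h, ih]
  refine ⟨fun n => f^[(N - 1) * n] (τ n), by simp, fun n => ?_, fun k => ?_⟩
  · simp only
    rw [← Function.iterate_succ_apply' f]
    have e1 : ((N - 1) * (n + 1)).succ = (N - 1) * n + N := by
      rw [Nat.succ_eq_add_one, mul_add, mul_one]
      omega
    rw [e1, Function.iterate_add_apply, h]
  · simp only
    have e1 : (N - 1) * (N * k) = N * ((N - 1) * k) := by ring
    have e2 : N * k = k + (N - 1) * k := by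
      obtain ⟨M, rfl⟩ := Nat.exists_eq_add_of_le hN
      rw [Nat.add_sub_cancel_left]
      ring
    rw [e1]
    conv_lhs => rw [e2]
    exact key _ _

theorem ff_mem (t : ℝ) : ff t ∈ Set.Icc (0 : ℝ) 1 := by
  rw [← KK_zero, ff_eq]
  have := KK_ww (i := 0) (t := t)
  rwa [ww_zero, zero_add] at this

/-- The map on the unit interval. -/
noncomputable def fI : Set.Icc (0 : ℝ) 1 → Set.Icc (0 : ℝ) 1 := fun x => ⟨ff x, ff_mem x⟩

theorem fI_iter (n : ℕ) (x : Set.Icc (0 : ℝ) 1) : ((fI^[n] x : Set.Icc (0 : ℝ) 1) : ℝ) =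
    ff^[n] x := by
  induction n with
  | zero => rfl
  | succ n ih =>
    rw [Function.iterate_succ_apply', Function.iterate_succ_apply', ← ih]
    rfl

theorem fixed (i : ℕ) : ∃ P : ℝ, ww i ≤ P ∧ P < lf (i + 1) ∧ ff^[2 ^ i] P = P ∧
    ∀ t, P < t → t ≤ lf (i + 1) → t < ff^[2 ^ i] t := by
  have hcont : Continuous (ff^[2 ^ i]) := ff_contDiff.continuous.iterate _
  have hmem : ∀ t ∈ Set.Icc (ww i) (lf (i + 1)), t ∈ KK i := by
    intro t ht
    have h1 := lf_le_ww i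
    have h2 := lf_le_ww (i + 1)
    have h3 := ww_lt (i + 1)
    have h4 := bb_gt i
    exact ⟨h1.trans ht.1, ht.2.trans (by linarith)⟩
  have hend : lf (i + 1) < ff^[2 ^ i] (lf (i + 1)) := by
    rw [renorm i _ (hmem _ ⟨(ww_lt_lf i).le, le_rfl⟩)]
    have h1 : lf (i + 1) ∈ KK (i + 1) := by
      have h2 := lf_le_ww (i + 1)
      have h3 := ww_lt (i + 1)
      have h4 := bb_gt (i + 1)
      exact ⟨le_rfl, by linarith⟩
    rw [hh_mid h1, hh_left (lf_le_ww (i + 1)), zero_div, sub_zero]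
    have h5 := yy_gt_half i
    have h2 := lf_le_ww (i + 1)
    have h3 := ww_lt (i + 1)
    unfold cc
    linarith
  set A : Set ℝ := {t | t ∈ Set.Icc (ww i) (lf (i + 1)) ∧ ff^[2 ^ i] t ≤ t} with hA
  have hAc : IsCompact A := by
    have h1 : A = Set.Icc (ww i) (lf (i + 1)) ∩ {t | ff^[2 ^ i] t ≤ t} := rfl
    rw [h1]
    exact isCompact_Icc.inter_right (isClosed_le hcont continuous_id)
  have hwA : ww i ∈ A := by
    refine ⟨⟨le_rfl, (ww_lt_lf i).le⟩, ?_⟩
    rw [renorm i _ (hmem _ ⟨le_rfl, (ww_lt_lf i).le⟩), hh_left le_rfl, add_zero]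
  have hP := hAc.sSup_mem ⟨_, hwA⟩
  set P := sSup A with hPdef
  have hPlt : P < lf (i + 1) := by
    refine lt_of_le_of_ne hP.1.2 ?_
    intro h
    have := hP.2
    rw [h] at this
    exact absurd hend (not_lt.2 this)
  have habove : ∀ t, P < t → t ≤ lf (i + 1) → t < ff^[2 ^ i] t := by
    intro t h1 h2
    by_contra hcon
    push Not at hcon
    have : t ∈ A := ⟨⟨hP.1.1.trans h1.le, h2⟩, hcon⟩
    have := le_csSup hAc.bddAbove this
    linarith
  refine ⟨P, hP.1.1, hPlt, le_antisymm hP.2 ?_, habove⟩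
  by_contra hcon
  push Not at hcon
  have h1 : (0 : ℝ) ∈ Set.Icc (ff^[2 ^ i] P - P) (ff^[2 ^ i] (lf (i + 1)) - lf (i + 1)) :=
    ⟨by linarith, by linarith⟩
  obtain ⟨t, ht, ht0⟩ := intermediate_value_Icc hPlt.le
    ((hcont.sub continuous_id).continuousOn) h1
  simp only [Pi.sub_apply, id_eq] at ht0
  rcases eq_or_lt_of_le ht.1 with h2 | h2
  · rw [← h2] at ht0
    linarith
  · have := habove t h2 ht.2
    linarith

theorem fixed_mem (i : ℕ) : ∃ P : Set.Icc (0 : ℝ) 1, ww i ≤ (P : ℝ) ∧ (P : ℝ) ≤ ww (i + 1) ∧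
    P ∈ specialAlpha fI ⟨1 / 2, by norm_num⟩ := by
  obtain ⟨P, h1, h2, h3, h4⟩ := fixed i
  have hcont : Continuous (ff^[2 ^ i]) := ff_contDiff.continuous.iterate _
  have hP0 : 0 ≤ P := (ww_nonneg i).trans h1
  have hP1 : P < 1 / 4 := h2.trans_le ((lf_le_ww (i + 1)).trans (ww_lt (i + 1)).le)
  have hend : 1 / 2 < ff^[2 ^ i] (lf (i + 1)) := by
    apply renorm_right
    have a2 := lf_le_ww (i + 1)
    have a3 := ww_lt (i + 1)
    have a4 := bb_gt (i + 1)
    exact ⟨le_rfl, by linarith⟩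
  have hstep : ∀ t : {t : ℝ // P < t ∧ t ≤ 1 / 2}, ∃ t' : {t : ℝ // P < t ∧ t ≤ 1 / 2},
      ff^[2 ^ i] t' = t ∧ (t' : ℝ) ≤ t ∧ (t' : ℝ) ≤ lf (i + 1) := by
    rintro ⟨t, ht1, ht2⟩
    set m := min t (lf (i + 1)) with hm
    have hPm : P < m := lt_min ht1 h2
    have hHm : t ≤ ff^[2 ^ i] m := by
      rcases min_choice t (lf (i + 1)) with h | h
      · rw [hm, h]
        refine (h4 t ht1 ?_).le
        rw [← h]
        exact min_le_right _ _
      · rw [hm, h]
        linarith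
    obtain ⟨t', ht', he⟩ := intermediate_value_Icc hPm.le hcont.continuousOn
      (⟨by rw [h3]; exact ht1.le, hHm⟩ : t ∈ Set.Icc (ff^[2 ^ i] P) (ff^[2 ^ i] m))
    have hPt' : P < t' := by
      refine lt_of_le_of_ne ht'.1 ?_
      rintro rfl
      rw [h3] at he
      linarith
    exact ⟨⟨t', hPt', ht'.2.trans ((min_le_left _ _).trans ht2)⟩, he,
      ht'.2.trans (min_le_left _ _), ht'.2.trans (min_le_right _ _)⟩
  choose nx hnx1 hnx2 hnx3 using hstep
  let τ : ℕ → {t : ℝ // P < t ∧ t ≤ 1 / 2} :=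
    fun n => Nat.rec ⟨1 / 2, by linarith, le_rfl⟩ (fun _ t => nx t) n
  have hτs : ∀ n, τ (n + 1) = nx (τ n) := fun n => rfl
  have hanti : Antitone (fun n : ℕ => ((τ n).1 : ℝ)) := by
    apply antitone_nat_of_succ_le
    intro n
    rw [hτs]
    exact hnx2 _
  have hbdd : BddBelow (Set.range (fun n : ℕ => (τ n).1)) :=
    ⟨P, by rintro _ ⟨n, rfl⟩; exact (τ n).2.1.le⟩
  have hlim := tendsto_atTop_ciInf hanti hbdd
  set l := ⨅ n : ℕ, (τ n).1 with hl
  have hPl : P ≤ l := le_ciInf fun n : ℕ => (τ n).2.1.le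
  have hll : l ≤ lf (i + 1) := (ciInf_le hbdd 1).trans (hnx3 _)
  have hfix : ff^[2 ^ i] l = l := by
    have a1 := (hcont.tendsto l).comp (hlim.comp (tendsto_add_atTop_nat 1))
    have a2 : (ff^[2 ^ i] ∘ ((fun n : ℕ => (τ n).1) ∘ fun n => n + 1)) = fun n : ℕ => (τ n).1 := by
      funext n
      simp only [Function.comp_apply]
      rw [hτs, hnx1]
    rw [a2] at a1
    exact tendsto_nhds_unique a1 hlim
  have hlP : l = P := by
    by_contra hne
    have := h4 l (lt_of_le_of_ne hPl (Ne.symm hne)) hll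
    linarith
  have hmem : ∀ n : ℕ, (τ n).1 ∈ Set.Icc (0 : ℝ) 1 := fun n =>
    ⟨hP0.trans (τ n).2.1.le, (τ n).2.2.trans (by norm_num)⟩
  obtain ⟨u, hu0, hu1, hu2⟩ := branch fI (2 ^ i) Nat.one_le_two_pow
    (fun n : ℕ => (⟨(τ n).1, hmem n⟩ : Set.Icc (0 : ℝ) 1)) (fun k => by
      apply Subtype.ext
      rw [fI_iter]
      exact hnx1 (τ k))
  refine ⟨⟨P, hP0, by linarith⟩, h1, h2.le.trans (lf_le_ww (i + 1)), u, hu0, hu1,
    fun k => 2 ^ i * k, ?_, ?_⟩
  · intro a b hab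
    exact Nat.mul_lt_mul_of_pos_left hab (by positivity)
  · rw [tendsto_subtype_rng]
    simp only [hu2]
    rw [hlP] at hlim
    exact hlim

/-- There is an infinitely differentiable map of the unit interval with a special alpha-limit set
that is not closed. -/
theorem result : ∃ f : Set.Icc (0 : ℝ) 1 → Set.Icc (0 : ℝ) 1,
    (∃ F : ℝ → ℝ, ContDiff ℝ ∞ F ∧ ∀ x : Set.Icc (0 : ℝ) 1, (f x : ℝ) = F x) ∧
      ∃ x : Set.Icc (0 : ℝ) 1, ¬ IsClosed (specialAlpha f x) := by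
  refine ⟨fI, ⟨ff, ff_contDiff, fun _ => rfl⟩, ⟨1 / 2, by norm_num⟩, fun hclosed => ?_⟩
  have hbdd : BddAbove (Set.range ww) := ⟨1 / 4, by rintro _ ⟨n, rfl⟩; exact (ww_lt n).le⟩
  have hlim := tendsto_atTop_ciSup ww_mono.monotone hbdd
  set a := ⨆ i, ww i with ha
  have ha1 : ∀ i, ww i < a := fun i => (ww_lt_succ i).trans_le (le_ciSup hbdd (i + 1))
  have ha2 : a ≤ 1 / 4 := ciSup_le fun i => (ww_lt i).le
  have ha0 : 0 ≤ a := (ww_nonneg 0).trans (ha1 0).le
  have hamem : a ∈ Set.Icc (0 : ℝ) 1 := ⟨ha0, by linarith⟩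
  choose P hP1 hP2 hP3 using fixed_mem
  have hPlim : Tendsto P atTop (𝓝 (⟨a, hamem⟩ : Set.Icc (0 : ℝ) 1)) := by
    rw [tendsto_subtype_rng]
    exact tendsto_of_tendsto_of_tendsto_of_le_of_le hlim
      (hlim.comp (tendsto_add_atTop_nat 1)) hP1 hP2
  have hin := hclosed.mem_of_tendsto hPlim (Filter.Eventually.of_forall hP3)
  obtain ⟨u, _, hu, φ, hφ, hφlim⟩ := hin
  have hφlim' : Tendsto (fun k => (u (φ k) : ℝ)) atTop (𝓝 a) :=
    (continuous_subtype_val.tendsto _).comp hφlim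
  have hiter : ∀ m n, (u n : ℝ) = ff^[m] (u (n + m)) := by
    intro m
    induction m with
    | zero => intro n; rfl
    | succ m ih =>
      intro n
      have e1 : ff (u (n + (m + 1))) = u (n + m) := congrArg Subtype.val (hu (n + m))
      rw [ih n, Function.iterate_succ_apply, e1]
  have hK : ∀ i, ∀ᶠ k in atTop, (u (φ k) : ℝ) ∈ KK i := by
    intro i
    have h1 : Set.Ioo (lf i) (bb i) ∈ 𝓝 a :=
      Ioo_mem_nhds ((lf_le_ww i).trans_lt (ha1 i)) (by have := bb_gt i; linarith)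
    filter_upwards [hφlim' h1] with k hk
    exact ⟨hk.1.le, hk.2.le⟩
  have hlt : ∀ᶠ k in atTop, (u (φ k) : ℝ) < 1 / 2 := hφlim' (gt_mem_nhds (by linarith))
  have hstep1 : ∀ n, (u n : ℝ) < 1 / 2 → ∀ i, (u n : ℝ) ∈ KK i := by
    intro n hn i
    obtain ⟨k, hk1, hk2⟩ := ((hK i).and (hφ.tendsto_atTop.eventually (eventually_ge_atTop n))).exists
    obtain ⟨m, hm⟩ := Nat.exists_eq_add_of_le hk2
    have h2 := hiter m n
    rw [← hm] at h2
    rcases returns hk1 m with h | h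
    · rw [h2]
      exact h.2
    · rw [← h2] at h
      linarith [h.2]
  obtain ⟨k1, hk1⟩ := hlt.exists
  obtain ⟨k2, hk2, hk12⟩ := (hlt.and (eventually_gt_atTop k1)).exists
  have hφ12 := hφ hk12
  obtain ⟨m, hm⟩ := Nat.exists_eq_add_of_lt hφ12
  have h3 := hiter (m + 1) (φ k1)
  have e1 : φ k1 + (m + 1) = φ k2 := by omega
  rw [e1] at h3
  rcases returns (hstep1 _ hk2 (m + 1)) (m + 1) with h | h
  · have h4 := Nat.le_of_dvd (Nat.succ_pos m) h.1
    have h5 : m + 1 < 2 ^ (m + 1) := Nat.lt_two_pow_self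
    omega
  · rw [← h3] at h
    linarith [h.2]

end Pool.Agent.Results.MP_0765f6_an.SmoothCounterexample
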